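import Mathlib
import Pool.Agent.Helper341_polar.Bridge

/-!
# Jacobian Newton polygons with respect to an arbitrary hyperplane

For a family of formal germs whose coefficients are continuous functions of a parameter in a
topological space, and for an arbitrary (possibly very non generic) hyperplane `H` such that the
germ at the parameter `t₀` and its restriction to `H` have finite Milnor numbers, the sum of the
two Milnor numbers is locally constant if and only if the jacobian Newton polygon with respect
to `H` (and then also the set of the polar quotients) is locally constant.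
-/

set_option autoImplicit false

namespace Pool.Agent.Results.MP_2a3461_ag.AnyHyperplane

open MvPowerSeries Filter Pool.Agent.Helper341_polar Pool.Agent.Helper341_polar.St

theorem result {T : Type*} [TopologicalSpace T] {t₀ : T} {m : ℕ} {f : T → Germ (m + 1)}
    (hcont : ∀ α : Fin (m + 1) →₀ ℕ, ContinuousAt (fun t => coeff α (f t)) t₀)
    (h0 : ∀ t, constantCoeff (f t) = 0)
    (hfin : milnor (f t₀) ≠ ⊤) (hfin' : milnor (restrict (f t₀)) ≠ ⊤) :
    (∀ᶠ t in nhds t₀, milnor (f t) + milnor (restrict (f t)) =
      milnor (f t₀) + milnor (restrict (f t₀))) ↔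
    ∀ᶠ t in nhds t₀, polygon (f t) = polygon (f t₀) ∧
      polarQuotients (f t) = polarQuotients (f t₀) := by
  have hc : CoeffCont f t₀ := hcont
  have hfin2 : colen (pol (f t₀) ⊔ Ideal.span {(X 0 : PS (m + 1))}) ≠ ⊤ := by
    rw [colen_res]
    exact hfin'
  have hg0 : Good (f t₀) := good_of_jac (h0 t₀) hfin2 hfin
  have hgood : ∀ᶠ t in nhds t₀, Good (f t) := by
    filter_upwards [usc_pol hc (CoeffCont.const (X 0) t₀) hg0.hX, usc_pol hc hc hg0.hf]
      with t h1 h2
    exact ⟨h0 t, h1.1, h2.1⟩
  constructor
  · intro h
    have h1 := family_mu hc (Eventually.of_forall h0)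
      (a := cl (jac (f t₀)) + cl (pol (f t₀) ⊔ Ideal.span {(X 0 : PS (m + 1))})) (by
        filter_upwards [h] with t ht
        have h2 : colen (jac (f t)) + colen (jac (res (f t))) =
          colen (jac (f t₀)) + colen (jac (res (f t₀))) := ht
        rw [h2, ← colen_res, ← coe_cl hg0.hX, ← coe_cl hg0.fin_jac]
        push_cast
        rfl)
    filter_upwards [h1] with t ht
    exact ⟨polygon_congr ht.1 hg0 ht.2.1, polarQuotients_congr ht.1 hg0 ht.2.1⟩
  · intro h
    filter_upwards [h, hgood] with t ht hgt
    have h1 := cl_f_congr hgt hg0 (mult_congr hgt hg0 ht.1)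
    rw [hgt.teissier, hg0.teissier] at h1
    have h2 : ∀ s, Good (f s) → milnor (f s) + milnor (restrict (f s)) =
        ((cl (jac (f s)) + cl (pol (f s) ⊔ Ideal.span {(X 0 : PS (m + 1))}) : ℕ) : ℕ∞) := by
      intro s hs
      have h3 : milnor (f s) + milnor (restrict (f s)) = colen (jac (f s)) + colen (jac (res (f s))) :=
        rfl
      rw [h3, ← colen_res, ← coe_cl hs.hX, ← coe_cl hs.fin_jac]
      push_cast
      rfl
    rw [h2 t hgt, h2 t₀ hg0, h1]

end Pool.Agent.Results.MP_2a3461_ag.AnyHyperplane
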