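import Mathlib
import Pool.Agent.Helper341_polar.Final

/-!
# Jacobian Newton polygons of analytic germs with respect to an arbitrary hyperplane

For a family of convergent power series whose coefficients are continuous functions of a parameter
in a topological space, and for an arbitrary (possibly very non generic) hyperplane `H` such that
the germ at the parameter `t₀` and its restriction to `H` have finite Milnor numbers, the sum of
the two Milnor numbers is locally constant if and only if the jacobian Newton polygon with respect
to `H` (and then also the set of the polar quotients) is locally constant.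
-/

set_option autoImplicit false

namespace Pool.Agent.Results.MP_2a3461_ag.ConvergentHyperplane

open MvPowerSeries Filter Pool.Agent.Helper341_polar Pool.Agent.Helper341_polar.StC

theorem result {T : Type*} [TopologicalSpace T] {t₀ : T} {m : ℕ} {f : T → Germ (m + 1)}
    (hcont : ∀ α : Fin (m + 1) →₀ ℕ,
      ContinuousAt (fun t => coeff α (f t : MvPowerSeries (Fin (m + 1)) ℂ)) t₀)
    (h0 : ∀ t, constantCoeff (f t : MvPowerSeries (Fin (m + 1)) ℂ) = 0)
    (hfin : milnor (f t₀) ≠ ⊤) (hfin' : milnor (restrict (f t₀)) ≠ ⊤) :
    (∀ᶠ t in nhds t₀, milnor (f t) + milnor (restrict (f t)) =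
      milnor (f t₀) + milnor (restrict (f t₀))) ↔
    ∀ᶠ t in nhds t₀, polygon (f t) = polygon (f t₀) ∧
      polarQuotients (f t) = polarQuotients (f t₀) := by
  have hc : CoeffCont (fun t => (f t : MvPowerSeries (Fin (m + 1)) ℂ)) t₀ := hcont
  have hm : ∀ t, milnor (f t) = colen (jac (f t : PS (m + 1))) := fun t => StC.milnor_eq _
  have hm' : ∀ t, milnor (restrict (f t)) = colen (jac (res (f t : PS (m + 1)))) :=
    fun t => StC.milnor_eq _
  simp only [hm, hm'] at hfin hfin' ⊢
  obtain ⟨hgood, hg0, hiff⟩ := fixed_iff hc h0 hfin hfin'
  rw [hiff]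
  constructor
  · intro h
    filter_upwards [h, hgood] with t ht hgt
    rw [StC.polygon_eq hgt, StC.polygon_eq hg0, StC.polarQuotients_eq hgt,
      StC.polarQuotients_eq hg0]
    exact ⟨polygon_congr hgt hg0 ht, polarQuotients_congr hgt hg0 ht⟩
  · intro h
    filter_upwards [h, hgood] with t ht hgt
    have h1 := ht.1
    rw [StC.polygon_eq hgt, StC.polygon_eq hg0] at h1
    exact mult_congr hgt hg0 h1

end Pool.Agent.Results.MP_2a3461_ag.ConvergentHyperplane
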