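import Mathlib
import Pool.Agent.Helper341_polar.Final

/-!
# Polar invariants of generic plane sections of analytic hypersurface germs

For a family of convergent power series whose coefficients are continuous functions of a parameter
in a topological space and for `i = m + 1 ≥ 1`: the sum of the Milnor numbers of the sections by
generic linear subspaces of the dimensions `i` and `i - 1` is constant near `t₀` if and only if the
polar invariant `F^(i)` and the generic jacobian Newton polygon of the `i`-dimensional sections are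
constant near `t₀`.
-/

set_option autoImplicit false

namespace Pool.Agent.Results.MP_2a3461_ag.ConvergentSections

open MvPowerSeries Filter Pool.Agent.Helper341_polar Pool.Agent.Helper341_polar.StC

theorem result {T : Type*} [TopologicalSpace T] {t₀ : T} {n : ℕ} {f : T → Germ n}
    (hcont : ∀ α : Fin n →₀ ℕ,
      ContinuousAt (fun t => coeff α (f t : MvPowerSeries (Fin n) ℂ)) t₀)
    (h0 : ∀ t, constantCoeff (f t : MvPowerSeries (Fin n) ℂ) = 0) (m : ℕ)
    (hfin : ∀ᶠ t in nhds t₀, ∃ x y : ℕ, IsMu (f t) (m + 1) x ∧ IsMu (f t) m y) :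
    (∃ a : ℕ, ∀ᶠ t in nhds t₀, ∃ x y : ℕ,
      IsMu (f t) (m + 1) x ∧ IsMu (f t) m y ∧ x + y = a) ↔
    ∃ (R : Set ℚ) (N : ℚ → ℕ∞), ∀ᶠ t in nhds t₀,
      IsF (f t) (m + 1) R ∧ IsPolygon (f t) m N := by
  have hc : CoeffCont (fun t => (f t : MvPowerSeries (Fin n) ℂ)) t₀ := hcont
  have hmu : ∀ (g : Germ n) (i x : ℕ), IsMu g i x ↔ Mu (g : PS n) i x := by
    intro g i x
    have h1 : ∀ A : Matrix (Fin n) (Fin i) ℂ,
        milnor (pull A g) = x ↔ colen (jac (sub A (g : PS n))) = x := by
      intro A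
      rw [StC.milnor_eq]
      rfl
    unfold IsMu Mu Generic Gen
    simp only [h1]
    rfl
  constructor
  · rintro ⟨a, h⟩
    obtain ⟨M, x, y, hM⟩ := generic_main (m := m) hc (Eventually.of_forall h0) (a := a) (by
      filter_upwards [h] with t ht
      obtain ⟨x, y, hx, hy, hxy⟩ := ht
      exact ⟨x, y, (hmu _ _ _).1 hx, (hmu _ _ _).1 hy, hxy⟩)
    have hP : ∀ g : Germ n, Pg (m := m) (g : PS n) M → IsPolygon g m (fun r => (M (r + 1) : ℕ∞)) := by
      intro g hg
      have hg' : Gen (fun A : Matrix (Fin n) (Fin (m + 1)) ℂ =>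
          polygon (pull A g) = (fun r => (M (r + 1) : ℕ∞))) := by
        apply hg.mono
        rintro A ⟨h1, h2⟩
        have h3 : Good ((pull A g : Germ (m + 1)) : PS (m + 1)) := h1
        rw [StC.polygon_eq h3]
        ext1 r
        rw [h3.polygon_eq]
        change ((mult (sub A (g : PS n)) (r + 1) : ℕ) : ℕ∞) = _
        rw [h2]
      exact hg'
    rcases m with _ | m
    · refine ⟨{(x : ℚ)}, fun r => (M (r + 1) : ℕ∞), ?_⟩
      filter_upwards [hM] with t ht
      exact ⟨⟨x, (hmu _ _ _).2 ht.2.1, rfl⟩, hP _ ht.1⟩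
    · refine ⟨{r | M (r + 1) ≠ 0}, fun r => (M (r + 1) : ℕ∞), ?_⟩
      filter_upwards [hM] with t ht
      have hg' : Gen (fun A : Matrix (Fin n) (Fin (m + 2)) ℂ =>
          polarQuotients (pull A (f t)) = {r | M (r + 1) ≠ 0}) := by
        apply ht.1.mono
        rintro A ⟨h1, h2⟩
        have h3 : Good ((pull A (f t) : Germ (m + 2)) : PS (m + 2)) := h1
        rw [StC.polarQuotients_eq h3]
        ext r
        rw [h3.mem_polarQuotients]
        change mult (sub A (f t : PS n)) (r + 1) ≠ 0 ↔ M (r + 1) ≠ 0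
        rw [h2]
      exact ⟨hg', hP _ ht.1⟩
  · rintro ⟨_, N, h⟩
    have hpol : ∀ g : Germ n, IsPolygon g m N →
        Gen fun A : Matrix (Fin n) (Fin (m + 1)) ℂ => Good (sub A (g : PS n)) →
          St.polygon (sub A (g : PS n)) = N := by
      intro g hg
      have hg' : Gen (fun A : Matrix (Fin n) (Fin (m + 1)) ℂ => polygon (pull A g) = N) := hg
      apply hg'.mono
      intro A hA h1
      have h3 : Good ((pull A g : Germ (m + 1)) : PS (m + 1)) := h1
      rw [StC.polygon_eq h3] at hA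
      exact hA
    obtain ⟨x₀, y₀, hx₀, hy₀⟩ := hfin.self_of_nhds
    refine ⟨x₀ + y₀, ?_⟩
    filter_upwards [h, hfin] with t ht ⟨x, y, hx, hy⟩
    exact ⟨x, y, hx, hy, sum_congr_of_polygon (h0 t) (h0 t₀) ((hmu _ _ _).1 hx)
      ((hmu _ _ _).1 hy) ((hmu _ _ _).1 hx₀) ((hmu _ _ _).1 hy₀) (hpol _ ht.2)
      (hpol _ h.self_of_nhds.2)⟩

end Pool.Agent.Results.MP_2a3461_ag.ConvergentSections
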