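import Mathlib
import Pool.Agent.Helper341_polar.Bridge

/-!
# Polar invariants of generic plane sections

For a family of formal germs whose coefficients are continuous functions of a parameter in a
topological space and for `i = m + 1 ≥ 1`: if the sum of the Milnor numbers of the sections by
generic linear subspaces of the dimensions `i` and `i - 1` is finite and constant near `t₀`, then
the polar invariant `F^(i)` and the generic jacobian Newton polygon of the `i`-dimensional sections
are constant near `t₀`.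
-/

set_option autoImplicit false

namespace Pool.Agent.Results.MP_2a3461_ag.GenericSections

open MvPowerSeries Filter Pool.Agent.Helper341_polar Pool.Agent.Helper341_polar.St

theorem result {T : Type*} [TopologicalSpace T] {t₀ : T} {n : ℕ} {f : T → Germ n}
    (hcont : ∀ α : Fin n →₀ ℕ, ContinuousAt (fun t => coeff α (f t)) t₀)
    (h0 : ∀ t, constantCoeff (f t) = 0) (m : ℕ)
    (h : ∃ a : ℕ, ∀ᶠ t in nhds t₀, ∃ x y : ℕ,
      IsMu (f t) (m + 1) x ∧ IsMu (f t) m y ∧ x + y = a) :
    ∃ (R : Set ℚ) (N : ℚ → ℕ∞), ∀ᶠ t in nhds t₀, IsF (f t) (m + 1) R ∧ IsPolygon (f t) m N := by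
  obtain ⟨a, h⟩ := h
  have hc : CoeffCont f t₀ := hcont
  obtain ⟨M, x, y, hM⟩ := generic_main (m := m) hc (Eventually.of_forall h0) (a := a) h
  have hP : ∀ g : Germ n, Pg (m := m) g M → IsPolygon g m (fun r => (M (r + 1) : ℕ∞)) := by
    intro g hg
    have hg' : Gen (fun A : Matrix (Fin n) (Fin (m + 1)) ℂ =>
        polygon (sub A g) = (fun r => (M (r + 1) : ℕ∞))) := by
      apply hg.mono
      rintro A ⟨h1, h2⟩
      ext1 r
      rw [h1.polygon_eq, h2]
    exact hg'
  rcases m with _ | m
  · refine ⟨{(x : ℚ)}, fun r => (M (r + 1) : ℕ∞), ?_⟩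
    filter_upwards [hM] with t ht
    exact ⟨⟨x, ht.2.1, rfl⟩, hP _ ht.1⟩
  · refine ⟨{r | M (r + 1) ≠ 0}, fun r => (M (r + 1) : ℕ∞), ?_⟩
    filter_upwards [hM] with t ht
    refine ⟨?_, hP _ ht.1⟩
    have hg' : Gen (fun A : Matrix (Fin n) (Fin (m + 2)) ℂ =>
        polarQuotients (sub A (f t)) = {r | M (r + 1) ≠ 0}) := by
      apply ht.1.mono
      rintro A ⟨h1, h2⟩
      ext r
      rw [h1.mem_polarQuotients, h2]
      rfl
    exact hg'

end Pool.Agent.Results.MP_2a3461_ag.GenericSections
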